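import Pool.Agent.X308.G.LowDefs
import Pool.Agent.X308.S.Sq

/-!
# The generalized Bloch conjecture for zero-cycles in low degrees
-/

set_option autoImplicit false

open CategoryTheory AlgebraicGeometry

universe u v w

namespace Pool.Agent.X308.G

open Pool.Agent.H914 Pool.Agent.H914.VarClass Pool.Agent.H914.VarClass.Obj Pool.Agent.W492.BB
  Pool.Agent.W550.Corr Pool.Agent.TH133 Pool.Agent.Y148.BB Pool.Agent.X308.S

set_option linter.unusedSectionVars false

variable {k : Type u} [Field k] {𝒱 : VarClass k} {C : TheoryData.{u, v, 0} 𝒱 ℚ}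
  [hC : IsChowProj C]

section weil

variable {K : Type w} [Field K]
  {H : WeilTheoryData.{u, v, w} C K} [hH : IsWeilProj H] {S T X Y Z W : 𝒱.Obj}

include hC hH

lemma nondeg_gr {a : H.A X} {m m' : ℤ} (ha : a ∈ H.gr X m) (hm : m + m' = 2 * X.dim)
    (h : ∀ b ∈ H.gr X m', H.tr X (a * b) = 0) : a = 0 := by
  apply H.nondeg
  have h0 : (H.tr X ∘ₗ LinearMap.mulLeft K a) = 0 := by
    apply ext_gr H
    intro j b hb
    rw [LinearMap.comp_apply, LinearMap.mulLeft_apply, LinearMap.zero_apply]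
    by_cases hj : j = m'
    · exact h b (hj ▸ hb)
    · exact tr_zero H (H.mul_mem ha hb) (by omega)
  intro b
  exact LinearMap.congr_fun h0 b

/-- A correspondence of degree zero kills `H^(2d-m)(X)` if its transpose kills `H^m(Y)`. -/
lemma act_zero_of_tp {Γ : C.A (X.prod Y)} (hΓ : Γ ∈ C.gr (X.prod Y) Y.dim) {m m' : ℤ}
    (hm : m + m' = 2 * X.dim) (h : ∀ b ∈ H.gr Y m, H.act (H.cl (tp C Γ)) b = 0) {a : H.A X}
    (ha : a ∈ H.gr X m') : H.act (H.cl Γ) a = 0 := by
  have h1 : H.act (H.cl Γ) a ∈ H.gr Y (m' + 2 * ((Y.dim : ℤ) - X.dim)) := actH_deg hΓ ha rfl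
  apply nondeg_gr h1 (m' := m) (by omega)
  intro b hb
  rw [← tr_act, h b hb, mul_zero, map_zero]

/-- Curves: a homologically trivial zero-cycle is fixed by the middle projector. -/
lemma curve_act {o v : C.A T} (hT : T.dim = 1) (ho : C.Deg 1 o) (hd : HasDegree C o 1)
    (hv : C.Deg 1 v) (h0 : H.cl v = 0) : C.act (curveCK C o 1) v = v := by
  have h2 := sum_act (curveCK_isCK (H := H) hT ho hd) v
  rw [hT] at h2
  simp only [show 2 * 1 + 1 = 3 from rfl, Finset.sum_range_succ, Finset.sum_range_zero] at h2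
  have e0 : C.act (curveCK C o 0) v = 0 :=
    act_ext_zero_of_lt (i := 1 + 1) (C.mul_mem ho hv) (by rw [hT]; norm_num)
  have e2 : C.act (curveCK C o 2) v = 0 := by
    have h3 : HasDegree C (1 * v) 0 := by
      rw [one_mul]
      apply hasDegree_zero_of_cl (H := H) _ h0
      rw [hT]
      exact_mod_cast hv
    have h4 : C.act (C.ext (1 : C.A T) o) v = (0 : ℚ) • o := act_ext' h3
    rw [zero_smul] at h4
    exact h4
  rw [e0, e2] at h2
  simpa using h2.symm

lemma exists_o (T : 𝒱.Obj) (hT : T.dim = 1) : ∃ o : C.A T, C.Deg 1 o ∧ HasDegree C o 1 := by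
  obtain ⟨o, h1, h2, h3⟩ := exists_deg_one C T
  refine ⟨o, ?_, fun Y => ⟨?_, ?_⟩⟩
  · rw [hT] at h1
    exact_mod_cast h1
  · rw [one_smul]
    exact h3 Y
  · rw [one_smul]
    exact h2 Y

/-- Curves: a correspondence from a curve which kills `H^1` may be replaced by a homologically
trivial one. -/
lemma curve_replace (hT : T.dim = 1) {Γ : C.A (T.prod Y)} {e : ℤ} (hΓ : Γ ∈ C.gr (T.prod Y) e)
    (h1 : ∀ a ∈ H.gr T 1, H.act (H.cl Γ) a = 0) {v : C.A T} (hv : C.Deg 1 v) (h0 : H.cl v = 0) :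
    ∃ Γ' ∈ C.gr (T.prod Y) e, H.cl Γ' = 0 ∧ C.act Γ' v = C.act Γ v := by
  obtain ⟨o, ho, hd⟩ := exists_o (H := H) (C := C) T hT
  have hck := curveCK_isCK (H := H) hT ho hd
  refine ⟨C.comp (curveCK C o 1) Γ, comp_deg (hck.deg 1) hΓ (by ring), ?_, ?_⟩
  · apply cl_zero_of
    intro m a ha
    rw [actH_comp, hck.actH_eq 1 m ha]
    split_ifs with hm
    · exact h1 a (by rw [hm] at ha; exact_mod_cast ha)
    · exact TheoryData.act_map_zero _ _
  · rw [C.act_comp, curve_act hT ho hd hv h0]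

/-- Surfaces: a correspondence from a surface whose transpose maps `H^2` to classes of divisors may
be replaced by a homologically trivial one. -/
lemma surface_replace (hK : ZeroCycleProperties H) (hd : S.dim = 2) {Γ : C.A (S.prod Y)}
    (hΓ : Γ ∈ C.gr (S.prod Y) Y.dim)
    (halg : ∀ b ∈ H.gr Y 2, H.act (H.cl (tp C Γ)) b ∈
      Submodule.span K {c | ∃ D : C.A S, C.Deg 1 D ∧ c = H.cl D}) {z : C.A S}
    (hz : InAlbKer C z) :
    ∃ Γ' ∈ C.gr (S.prod Y) Y.dim, H.cl Γ' = 0 ∧ C.act Γ' z = C.act Γ z := by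
  obtain ⟨π, hπ, hid, hne, halb⟩ := hK.murre S hd
  obtain ⟨m, D, E, hDE, hNS⟩ := hK.neronSeveri S hd
  set Q : C.A (S.prod S) := ∑ i, C.ext (E i) (D i) with hQ
  set P : C.A (S.prod S) := ∑ i, C.ext (D i) (E i) with hP
  have hPQ : tp C P = Q := by
    rw [hP, hQ, tp_sum]
    exact Finset.sum_congr rfl fun i _ => tp_ext _ _
  have hPm : P ∈ C.gr (S.prod S) 2 := by
    rw [hP]
    exact Submodule.sum_mem _ fun i _ => ext_mem' (hDE i).1 (hDE i).2
  have hz2 : z ∈ C.gr S 2 := by
    have := hz.deg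
    rwa [hd] at this
  have hPz : C.act P z = 0 := by
    have h1 : C.act P z = ∑ i, C.act (C.ext (D i) (E i)) z := by
      rw [hP, act_sum]
    rw [h1]
    apply Finset.sum_eq_zero
    intro i _
    exact act_ext_zero_of_lt (i := 1 + 2) (C.mul_mem (hDE i).1 hz2) (by rw [hd]; norm_num)
  have hΔ : Γ - C.comp P Γ ∈ C.gr (S.prod Y) Y.dim :=
    Submodule.sub_mem _ hΓ (comp_deg hPm hΓ (by rw [hd]; push_cast; ring))
  refine ⟨C.comp π (Γ - C.comp P Γ), comp_deg hπ hΔ (by rw [hd]; push_cast; ring),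
    ?_, ?_⟩
  · apply cl_zero_of
    intro j a ha
    rw [actH_comp]
    by_cases hj : j = 2
    · rw [hj] at ha
      have ha' : a ∈ H.gr S 2 := by exact_mod_cast ha
      rw [hid a ha']
      have h1 : H.act (H.cl (Γ - C.comp P Γ)) a =
          H.act (H.cl Γ) (a - H.act (H.cl P) a) := by
        rw [map_sub, TheoryData.act_sub, actH_comp]
        have h3 := (H.actL (H.cl Γ)).map_sub a (H.act (H.cl P) a)
        exact h3.symm
      rw [h1]
      have hPa : H.act (H.cl P) a ∈ H.gr S 2 := actH_deg hPm ha' (by rw [hd]; norm_num)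
      have h4 : H.act (H.cl Γ) (a - H.act (H.cl P) a) ∈
          H.gr Y (2 + 2 * ((Y.dim : ℤ) - S.dim)) :=
        actH_deg hΓ (Submodule.sub_mem _ ha' hPa) rfl
      apply nondeg_gr h4 (m' := 2) (by rw [hd]; push_cast; ring)
      intro b hb
      rw [← tr_act]
      -- the functional vanishes on classes of divisors
      have h5 : Submodule.span K {c | ∃ D : C.A S, C.Deg 1 D ∧ c = H.cl D} ≤
          LinearMap.ker (H.tr S ∘ₗ LinearMap.mulLeft K (a - H.act (H.cl P) a)) := by
        rw [Submodule.span_le]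
        rintro c ⟨x, hx, rfl⟩
        rw [SetLike.mem_coe, LinearMap.mem_ker, LinearMap.comp_apply, LinearMap.mulLeft_apply,
          sub_mul, map_sub, ← tr_act H P a (H.cl x), hPQ, ← cl_act H, hNS x hx, sub_self]
      exact h5 (halg b hb)
    · rw [hne j a hj ha]
      exact TheoryData.act_map_zero _ _
  · rw [C.act_comp, halb z hz, C.act_sub, C.act_comp, hPz, TheoryData.act_map_zero,
      sub_zero]

variable {F : Filtration C}

/-- The Albanese kernel of a surface is in `F^2`. -/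
lemma albKer_F2 (hK : ZeroCycleProperties H) (hF : IsBlochBeilinson H F) (hd : S.dim = 2)
    {z : C.A S} (hz : InAlbKer C z) : F.Mem 2 2 z := by
  obtain ⟨π, hπ, hid, hne, halb⟩ := hK.murre S hd
  have h1 := halb z hz
  have hz2 : z ∈ C.gr S 2 := by
    have := hz.deg
    rwa [hd] at this
  have h0 : H.cl z = 0 := by
    rw [← h1, cl_act H]
    exact hne (2 * 2) _ (by norm_num) (H.cl_mem hz2)
  obtain ⟨T, f, v, hT, hv, hv0, hfv⟩ := hK.curves S z (by omega) hz.deg h0
  have hg : C.graph f ∈ C.gr (T.prod S) 2 := by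
    have := graph_mem' (C := C) f
    rw [hd] at this
    exact_mod_cast this
  have hΓ : C.comp (C.graph f) π ∈ C.gr (T.prod S) 2 :=
    comp_deg hg hπ (by rw [hd]; norm_num)
  obtain ⟨Γ', h2, h3, h4⟩ := curve_replace hT hΓ (fun a ha => by
    rw [actH_comp]
    exact hne (1 + 2 * (2 - T.dim)) _ (by rw [hT]; norm_num)
      (actH_deg hg ha rfl)) hv hv0
  have h5 := hF.shift T S 1 2 1 Γ' (by rw [hT]; exact h2) h3 v ((hF.bounded.one T 1 v).2 ⟨hv, hv0⟩)
  rw [h4, C.act_comp, C.act_graph] at h5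
  have h6 : C.push f v = z := hfv
  rw [h6, h1] at h5
  exact h5

/-- `F^2 CH_0` is contained in the Albanese kernel. -/
lemma F2_albKer (hF : IsBlochBeilinson H F) {z : C.A X} (hz : F.Mem X.dim 2 z) :
    InAlbKer C z := by
  refine ⟨F.le_gr _ _ _ hz, fun Y W hW => ?_⟩
  have h1 := hF.stable X Y X.dim 1 2 W (by push_cast; ring_nf; exact hW) z hz
  exact hF.bounded.top Y 1 _ h1

end weil

section betti

variable {H : WeilTheoryData.{u, v, 0} C ℂ} [hH : IsWeilProj H] {S T X Y Z W : 𝒱.Obj}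
  {P : HodgeData H}

include hC hH

lemma zero_of_conj (hO : IsHodge P) {Γ : C.A (X.prod Y)} {p q : ℕ}
    (h : ∀ ω ∈ P.hod X p q, H.act (H.cl Γ) ω = 0) {x : H.A X} (hx : x ∈ P.hod X q p) :
    H.act (H.cl Γ) x = 0 := by
  obtain ⟨h1, h2, h3⟩ := hO.conjugation
  have h4 := h _ (h3 X q p x hx)
  have h5 : P.conj X 0 = 0 := by
    have h6 := h2 X X 0 0
    rwa [actH_zero, actH_zero, eq_comm] at h6
  have h7 : P.conj Y 0 = 0 := by
    have h6 := h2 Y Y 0 0
    rwa [actH_zero, actH_zero, eq_comm] at h6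
  rw [h2] at h4
  rw [← h1 Y (H.act (H.cl Γ) x), h4, h7]

/-- **The generalized Bloch conjecture for zero-cycles in degrees at most two.** -/
theorem low_degrees (hK : ZeroCycleProperties H) (hO : IsHodge P) {F : Filtration C}
    (hF : IsBlochBeilinson H F) {Z : C.A (X.prod Y)} (hZ : C.Deg Y.dim Z) {i : ℕ} (hi : i ≤ 2)
    (h0 : ZeroOnForms P i Z) : ZeroOnGr F i Z := by
  intro z hz
  have hZt : tp C Z ∈ C.gr (Y.prod X) Y.dim := tp_mem C hZ
  obtain rfl | rfl | rfl : i = 0 ∨ i = 1 ∨ i = 2 := by omega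
  · -- degree zero
    have hz' : z ∈ C.gr X X.dim := (hF.bounded.zero X X.dim z).1 hz
    rw [zero_add, hF.bounded.one]
    have h1 : C.act Z z ∈ C.gr Y Y.dim := act_deg hZ hz' (by ring)
    refine ⟨h1, ?_⟩
    rw [cl_act H]
    apply act_zero_of_tp hZ (m := 0) (m' := 2 * X.dim) (by ring) _ (H.cl_mem hz')
    intro b hb
    obtain ⟨x, hx, h3⟩ := hO.decomposition.1 Y 0 b (by exact_mod_cast hb)
    rw [Finset.sum_range_one] at h3
    rw [h3]
    exact h0 _ (hx 0 le_rfl)
  · -- degree one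
    rcases Nat.eq_zero_or_pos X.dim with hX | hX
    · have h1 : z = 0 := by
        have h2 : F.Mem X.dim 1 z := hz
        rw [hX] at h2
        exact hF.bounded.top X 0 z h2
      rw [h1, TheoryData.act_map_zero]
      exact Submodule.zero_mem _
    · obtain ⟨hz1, hz0⟩ := (hF.bounded.one X X.dim z).1 hz
      obtain ⟨T, f, v, hT, hv, hv0, hfv⟩ := hK.curves X z hX hz1 hz0
      have hg := graph_mem' (C := C) f
      have hΓ : C.comp (C.graph f) Z ∈ C.gr (T.prod Y) Y.dim := comp_deg hg hZ (by ring)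
      have hH1 : ∀ b ∈ H.gr Y 1, H.act (H.cl (tp C Z)) b = 0 := by
        intro b hb
        obtain ⟨x, hx, h3⟩ := hO.decomposition.1 Y 1 b (by exact_mod_cast hb)
        rw [Finset.sum_range_succ, Finset.sum_range_one] at h3
        have h4 := (H.actL (H.cl (tp C Z))).map_add (x 0) (x 1)
        rw [h3]
        refine h4.trans ?_
        rw [H.actL_apply, H.actL_apply, h0 _ (hx 1 le_rfl), add_zero]
        exact zero_of_conj hO h0 (hx 0 (by omega))
      obtain ⟨Γ', h2, h3, h4⟩ := curve_replace hT hΓ (fun a ha => by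
        apply act_zero_of_tp hΓ (m := 1) (m' := 1) (by rw [hT]; norm_num) _ ha
        intro b hb
        rw [tp_comp', actH_comp, hH1 b hb, TheoryData.act_map_zero]) hv hv0
      have h5 := hF.shift T Y 1 Y.dim 1 Γ' (by rw [hT]; push_cast; ring_nf; exact h2) h3 v
        ((hF.bounded.one T 1 v).2 ⟨hv, hv0⟩)
      rw [h4, C.act_comp, C.act_graph] at h5
      have h6 : C.push f v = z := hfv
      rwa [h6] at h5
  · -- degree two
    rcases Nat.lt_or_ge X.dim 2 with hX | hX
    · have h1 : z = 0 := by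
        apply hF.bounded.top X X.dim z
        rcases Nat.eq_zero_or_pos X.dim with hX0 | hX1
        · have h2 := F.anti X X.dim 1 hz
          rw [hX0] at h2 ⊢
          exact h2
        · have h3 : X.dim = 1 := by omega
          rw [h3] at hz ⊢
          exact hz
      rw [h1, TheoryData.act_map_zero]
      exact Submodule.zero_mem _
    · obtain ⟨S, f, w, hd, hw, hfw⟩ := hK.surfaces X z hX (F2_albKer hF hz)
      have hg := graph_mem' (C := C) f
      have hΓ : C.comp (C.graph f) Z ∈ C.gr (S.prod Y) Y.dim := comp_deg hg hZ (by ring)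
      have hrat : ∀ b ∈ P.rat Y, b ∈ H.gr Y 2 → H.act (H.cl (tp C Z)) b ∈
          Submodule.span ℂ {c | ∃ D : C.A X, C.Deg 1 D ∧ c = H.cl D} := by
        intro b hbr hb
        obtain ⟨x, hx, h3⟩ := hO.decomposition.1 Y 2 b (by exact_mod_cast hb)
        rw [Finset.sum_range_succ, Finset.sum_range_succ, Finset.sum_range_one] at h3
        apply hO.lefschetz _ _ (hO.rational.2 Y X (tp C Z) b hbr)
        · exact actH_deg (H := H) hZt (m := 2) (j := 2) hb (by ring)
        · have h4 := (H.actL (H.cl (tp C Z))).map_add (x 0 + x 1) (x 2)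
          have h5 := (H.actL (H.cl (tp C Z))).map_add (x 0) (x 1)
          rw [h3]
          rw [h5, H.actL_apply, H.actL_apply, H.actL_apply, H.actL_apply, h0 _ (hx 2 le_rfl),
            zero_of_conj hO h0 (hx 0 (by omega)), zero_add, add_zero] at h4
          rw [h4]
          exact hO.decomposition.2 Y X (tp C Z) hZt 1 1 _ (hx 1 (by omega))
      have hspan : ∀ b ∈ H.gr Y 2, H.act (H.cl (tp C Z)) b ∈
          Submodule.span ℂ {c | ∃ D : C.A X, C.Deg 1 D ∧ c = H.cl D} := by
        intro b hb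
        have h5 := hO.rational.1 Y 2 b (by exact_mod_cast hb)
        have h6 : Submodule.span ℂ {b | b ∈ P.rat Y ∧ H.Deg (2 : ℕ) b} ≤
            (Submodule.span ℂ {c | ∃ D : C.A X, C.Deg 1 D ∧ c = H.cl D}).comap
              (H.actL (H.cl (tp C Z))) := by
          rw [Submodule.span_le]
          rintro c ⟨hc1, hc2⟩
          exact hrat c hc1 (by exact_mod_cast hc2)
        exact h6 h5
      obtain ⟨Γ', h2, h3, h4⟩ := surface_replace hK hd hΓ (fun b hb => by
        rw [tp_comp', actH_comp, X308.A.tp_graph]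
        have h5 := hspan b hb
        have h6 : Submodule.span ℂ {c | ∃ D : C.A X, C.Deg 1 D ∧ c = H.cl D} ≤
            (Submodule.span ℂ {c | ∃ D : C.A S, C.Deg 1 D ∧ c = H.cl D}).comap
              (H.actL (H.cl (C.cograph f))) := by
          rw [Submodule.span_le]
          rintro c ⟨D, hD, rfl⟩
          rw [SetLike.mem_coe, Submodule.mem_comap, TheoryData.actL_apply, ← cl_act H,
            C.act_cograph]
          exact Submodule.subset_span ⟨C.pull f D, C.pull_mem f hD, rfl⟩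
        exact h6 h5) hw
      have h5 := hF.shift S Y 2 Y.dim 2 Γ' (by rw [hd]; push_cast; ring_nf; exact h2) h3 w
        (albKer_F2 hK hF hd hw)
      rw [h4, C.act_comp, C.act_graph] at h5
      have h6 : C.push f w = z := hfw
      rwa [h6] at h5

end betti

end Pool.Agent.X308.G
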