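import Pool.Agent.X308.S.AlbDefs
import Mathlib.Data.Complex.Basic

/-!
# Bloch-Beilinson filtrations and Hodge numbers: definitions
-/

set_option autoImplicit false

open CategoryTheory AlgebraicGeometry

universe u v w

namespace Pool.Agent.X308.G

open Pool.Agent.H914 Pool.Agent.H914.VarClass Pool.Agent.H914.VarClass.Obj Pool.Agent.W492.BB
  Pool.Agent.W550.Corr Pool.Agent.TH133 Pool.Agent.X308.S

variable {k : Type u} [Field k] {𝒱 : VarClass k} {C : TheoryData.{u, v, 0} 𝒱 ℚ}

/-- The filtration is respected by all correspondences, of any degree. -/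
def IsStableUnder (F : Filtration C) : Prop :=
  ∀ (X Y : 𝒱.Obj) (j i n : ℕ) (Γ : C.A (X.prod Y)), C.Deg (X.dim + i - j) Γ →
    ∀ z : C.A X, F.Mem j n z → F.Mem i n (C.act Γ z)

section Weil

variable {K : Type w} [Field K] (H : WeilTheoryData.{u, v, w} C K)

/-- Homologically trivial correspondences, of any degree, act as zero on the graded pieces. -/
def TrivialShift (F : Filtration C) : Prop :=
  ∀ (X Y : 𝒱.Obj) (j i n : ℕ) (Γ : C.A (X.prod Y)), C.Deg (X.dim + i - j) Γ → H.cl Γ = 0 →
    ∀ z : C.A X, F.Mem j n z → F.Mem i (n + 1) (C.act Γ z)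

/-- A Bloch-Beilinson filtration on the Chow groups of all varieties of the class: a descending
filtration `F^n CH^i(X)` such that

* (i), (iv) `F^0 CH^i(X) = CH^i(X)`, `F^1 CH^i(X)` consists of the homologically trivial cycles and
  `F^(i+1) CH^i(X) = 0` (`IsBounded`);
* (ii) it is respected by all correspondences (of any degree);
* (iii) homologically trivial correspondences act as zero on the graded pieces. -/
structure IsBlochBeilinson (F : Filtration C) : Prop where
  bounded : IsBounded H F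
  stable : IsStableUnder F
  shift : TrivialShift H F

/-- A homologically trivial zero-cycle on a variety `X` of positive dimension is the push-forward
of a homologically trivial zero-cycle from a curve. -/
def CyclesFromCurves : Prop :=
  ∀ (X : 𝒱.Obj) (z : C.A X), 1 ≤ X.dim → C.Deg X.dim z → H.cl z = 0 →
    ∃ (T : 𝒱.Obj) (f : T ⟶ X) (w : C.A T), T.dim = 1 ∧ C.Deg 1 w ∧ H.cl w = 0 ∧ C.down f w = z

variable (C) in
/-- A zero-cycle in the Albanese kernel of a variety `X` of dimension at least two is the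
push-forward of a zero-cycle in the Albanese kernel of a surface (Bertini, Lefschetz). -/
def CyclesFromSurfaces : Prop :=
  ∀ (X : 𝒱.Obj) (z : C.A X), 2 ≤ X.dim → InAlbKer C z →
    ∃ (S : 𝒱.Obj) (f : S ⟶ X) (w : C.A S), S.dim = 2 ∧ InAlbKer C w ∧ C.down f w = z

/-- Murre's projector `π_2` of a surface: a correspondence which acts as the identity on `H^2(S)`
and on the Albanese kernel and as zero on `H^m(S)` for `m ≠ 2`. -/
def MurreForSurfaces : Prop :=
  ∀ S : 𝒱.Obj, S.dim = 2 → ∃ π : C.A (S.prod S), C.Deg 2 π ∧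
    (∀ a : H.A S, H.Deg 2 a → H.act (H.cl π) a = a) ∧
    (∀ (m : ℤ) (a : H.A S), m ≠ 2 → H.Deg m a → H.act (H.cl π) a = 0) ∧
    ∀ z : C.A S, InAlbKer C z → C.act π z = z

/-- The classes of the divisors on a surface are of finite rank, with nondegenerate intersection
form: there are divisors `D i` and `E i` such that `x` is homologically equivalent to
`∑ (x · E i) D i` for all divisors `x`. -/
def NeronSeveri : Prop :=
  ∀ S : 𝒱.Obj, S.dim = 2 → ∃ (m : ℕ) (D E : Fin m → C.A S),
    (∀ i, C.Deg 1 (D i) ∧ C.Deg 1 (E i)) ∧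
      ∀ x : C.A S, C.Deg 1 x → H.cl (C.act (∑ i, C.ext (E i) (D i)) x) = H.cl x

/-- Four known facts on zero-cycles and surfaces. -/
structure ZeroCycleProperties : Prop where
  curves : CyclesFromCurves H
  surfaces : CyclesFromSurfaces C
  murre : MurreForSurfaces H
  neronSeveri : NeronSeveri H

end Weil

/-- The correspondence `Z ∈ CH^(dim Y)(X × Y)` acts as zero from `Gr_F^i CH_0(X)` to
`Gr_F^i CH_0(Y)`. -/
def ZeroOnGr (F : Filtration C) (i : ℕ) {X Y : 𝒱.Obj} (Z : C.A (X.prod Y)) : Prop :=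
  ∀ z : C.A X, F.Mem X.dim i z → F.Mem Y.dim (i + 1) (C.act Z z)

section Hodge

/-- The data of Hodge theory on the cohomology `H(X) = H(X, ℂ)` with complex coefficients: the
subset `rat X` of the rational classes, the complex conjugation and the subspaces
`hod X p q = H^{p,q}(X)`. -/
structure HodgeData (H : WeilTheoryData.{u, v, 0} C ℂ) where
  /-- the rational classes -/
  rat : ∀ X : 𝒱.Obj, Set (H.A X)
  /-- the complex conjugation -/
  conj : ∀ X : 𝒱.Obj, H.A X → H.A X
  /-- the classes of type `(p, q)` -/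
  hod : ∀ X : 𝒱.Obj, ℕ → ℕ → Set (H.A X)

variable {H : WeilTheoryData.{u, v, 0} C ℂ} (P : HodgeData H) {X Y : 𝒱.Obj}

/-- `H^m(X, ℂ)` is spanned by the rational classes in it, and algebraic correspondences preserve
rational classes. -/
def RationalStructure : Prop :=
  (∀ (X : 𝒱.Obj) (m : ℕ) (a : H.A X), H.Deg m a →
    a ∈ Submodule.span ℂ {b | b ∈ P.rat X ∧ H.Deg m b}) ∧
  ∀ (X Y : 𝒱.Obj) (Γ : C.A (X.prod Y)), ∀ a ∈ P.rat X, H.act (H.cl Γ) a ∈ P.rat Y

/-- The complex conjugation is an involution, commutes with algebraic correspondences and maps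
`H^{p,q}(X)` to `H^{q,p}(X)`. -/
def Conjugation : Prop :=
  (∀ (X : 𝒱.Obj) (a : H.A X), P.conj X (P.conj X a) = a) ∧
  (∀ (X Y : 𝒱.Obj) (Γ : C.A (X.prod Y)) (a : H.A X),
    H.act (H.cl Γ) (P.conj X a) = P.conj Y (H.act (H.cl Γ) a)) ∧
  ∀ (X : 𝒱.Obj) (p q : ℕ), ∀ a ∈ P.hod X p q, P.conj X a ∈ P.hod X q p

/-- The Hodge decomposition: every class in `H^m(X)` is a sum of classes of types `(p, m - p)`, and
algebraic correspondences of degree zero preserve the types. -/
def Decomposition : Prop :=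
  (∀ (X : 𝒱.Obj) (m : ℕ) (a : H.A X), H.Deg m a → ∃ x : ℕ → H.A X,
    (∀ p ≤ m, x p ∈ P.hod X p (m - p)) ∧ a = ∑ p ∈ Finset.range (m + 1), x p) ∧
  ∀ (X Y : 𝒱.Obj) (Γ : C.A (X.prod Y)), C.Deg X.dim Γ → ∀ p q : ℕ, ∀ a ∈ P.hod X p q,
    H.act (H.cl Γ) a ∈ P.hod Y p q

/-- The theorem of Lefschetz: a rational class of type `(1, 1)` in `H^2(X)` is a linear combination
of classes of divisors. -/
def LefschetzOneOne : Prop :=
  ∀ (X : 𝒱.Obj), ∀ a ∈ P.rat X, H.Deg 2 a → a ∈ P.hod X 1 1 →
    a ∈ Submodule.span ℂ {c | ∃ D : C.A X, C.Deg 1 D ∧ c = H.cl D}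

/-- The known properties of the Hodge decomposition of the cohomology of smooth projective complex
varieties. -/
structure IsHodge : Prop where
  rational : RationalStructure P
  conjugation : Conjugation P
  decomposition : Decomposition P
  lefschetz : LefschetzOneOne P

/-- The correspondence `Z` from `X` to `Y` acts as zero from `H^{i,0}(Y)` to `H^{i,0}(X)`. -/
def ZeroOnForms (i : ℕ) (Z : C.A (X.prod Y)) : Prop :=
  ∀ ω ∈ P.hod Y i 0, H.act (H.cl (tp C Z)) ω = 0

end Hodge

end Pool.Agent.X308.G
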