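import Pool.Agent.X308.G.TensorDefs
import Pool.Agent.X308.Z.Main

/-!
# Bloch-Beilinson filtrations on products of curves and surfaces
-/

set_option autoImplicit false

universe u v w

namespace Pool.Agent.X308.G

open CategoryTheory Pool.Agent.H914 Pool.Agent.H914.VarClass Pool.Agent.H914.VarClass.Obj
  Pool.Agent.W492.BB Pool.Agent.W550.Corr Pool.Agent.TH133 Pool.Agent.Y148.BB Pool.Agent.X308.S

set_option linter.unusedSectionVars false

variable {k : Type u} [Field k] {𝒱 : VarClass k} {C : TheoryData.{u, v, 0} 𝒱 ℚ}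
  [hC : IsChowProj C] {S T U V X Y Z W : 𝒱.Obj}

section pieces

include hC

/-- A direct summand: a factor with correspondences from and to `X`. -/
structure Piece (C : TheoryData.{u, v, 0} 𝒱 ℚ) (X : 𝒱.Obj) where
  /-- the factor -/
  f : Factor C
  /-- the correspondence from `X` -/
  a : C.A (X.prod f.V)
  /-- the correspondence to `X` -/
  b : C.A (f.V.prod X)

/-- The action of a piece. -/
noncomputable def Piece.act (p : Piece C X) (z : C.A X) : C.A X :=
  C.act p.b (C.act p.f.π (C.act p.a z))

lemma Piece.act_add (p : Piece C X) (z z' : C.A X) : p.act (z + z') = p.act z + p.act z' := by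
  simp only [Piece.act, act_map_add]

lemma Piece.act_smul (p : Piece C X) (q : ℚ) (z : C.A X) : p.act (q • z) = q • p.act z := by
  simp only [Piece.act, act_map_smul]

lemma Piece.act_zero (p : Piece C X) : p.act (0 : C.A X) = 0 := by
  simp only [Piece.act, TheoryData.act_map_zero]

/-- The pieces of the list `P` and a zero-cycle `o` decompose the zero-cycles on `X`. -/
structure Decomposes (C : TheoryData.{u, v, 0} 𝒱 ℚ) (X : 𝒱.Obj) (P : List (Piece C X))
    (o : C.A X) : Prop where
  deg : ∀ p ∈ P, C.Deg p.f.V.dim p.a ∧ C.Deg X.dim p.b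
  odeg : C.Deg X.dim o ∧ HasDegree C o 1
  sum : ∀ z : C.A X, C.Deg X.dim z → ∃ q : ℚ, HasDegree C z q ∧
    z = q • o + (P.map fun p => p.act z).sum

lemma sum_act_add (P : List (Piece C X)) (z z' : C.A X) :
    (P.map fun p => p.act (z + z')).sum =
      (P.map fun p => p.act z).sum + (P.map fun p => p.act z').sum := by
  induction P with
  | nil => simp
  | cons p P ih =>
    rw [List.map_cons, List.map_cons, List.map_cons, List.sum_cons, List.sum_cons, List.sum_cons,
      ih, Piece.act_add]
    abel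

lemma sum_act_smul (P : List (Piece C X)) (q : ℚ) (z : C.A X) :
    (P.map fun p => p.act (q • z)).sum = q • (P.map fun p => p.act z).sum := by
  induction P with
  | nil => simp
  | cons p P ih =>
    rw [List.map_cons, List.map_cons, List.sum_cons, List.sum_cons, ih, Piece.act_smul, smul_add]

lemma sum_act_zero (P : List (Piece C X)) : (P.map fun p => p.act (0 : C.A X)).sum = 0 := by
  induction P with
  | nil => simp
  | cons p P ih => rw [List.map_cons, List.sum_cons, ih, Piece.act_zero, add_zero]

lemma ext_add_left (x x' : C.A X) (y : C.A Y) : C.ext (x + x') y = C.ext x y + C.ext x' y := by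
  simp only [TheoryData.ext, map_add, add_mul]

lemma ext_add_right (x : C.A X) (y y' : C.A Y) : C.ext x (y + y') = C.ext x y + C.ext x y' := by
  simp only [TheoryData.ext, map_add, mul_add]

lemma ext_smul_l (q : ℚ) (x : C.A X) (y : C.A Y) : C.ext (q • x) y = q • C.ext x y := by
  simp only [TheoryData.ext, map_smul, smul_mul_assoc]

lemma ext_smul_r (q : ℚ) (x : C.A X) (y : C.A Y) : C.ext x (q • y) = q • C.ext x y := by
  simp only [TheoryData.ext, map_smul, mul_smul_comm]

lemma ext_list_sum (x : C.A X) (l : List (C.A Y)) :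
    C.ext x l.sum = (l.map fun y => C.ext x y).sum := by
  induction l with
  | nil => simp [C.ext_zero_right]
  | cons y l ih => rw [List.sum_cons, ext_add_right, ih, List.map_cons, List.sum_cons]

/-- The pieces of a factor. -/
lemma decomposes_one {f : Factor C} {o : C.A f.V} (ho : C.Deg f.V.dim o) (ho1 : HasDegree C o 1)
    (h : ∀ (z : C.A f.V) (q : ℚ), C.Deg f.V.dim z → HasDegree C z q →
      C.act f.π z = z - q • o) :
    Decomposes C f.V [⟨f, dg C f.V, dg C f.V⟩] o where
  deg p hp := by
    rw [List.mem_singleton] at hp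
    subst hp
    exact ⟨dg_mem C _, dg_mem C _⟩
  odeg := ⟨ho, ho1⟩
  sum z hz := by
    obtain ⟨q, hq⟩ := exists_hasDegree (C := C) hz
    refine ⟨q, hq, ?_⟩
    rw [List.map_singleton, List.sum_singleton, Piece.act, act_dg, act_dg, h z q hz hq]
    abel

lemma push_fst_ext (x : C.A X) (y : C.A Y) {r : ℚ} (hr : HasDegree C y r) :
    C.push (fst X Y) (C.ext x y) = r • x := by
  rw [TheoryData.ext, C.proj_left, (hr X).2, mul_smul_comm, mul_one]

lemma push_snd_ext (x : C.A X) (y : C.A Y) {r : ℚ} (hr : HasDegree C x r) :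
    C.push (snd X Y) (C.ext x y) = r • y := by
  rw [TheoryData.ext, C.proj_right, (hr Y).1, smul_mul_assoc, one_mul]

/-- The pieces of a product. -/
lemma decomposes_prod (hpt : PointsAreProducts C) {f : Factor C} {o : C.A f.V}
    (ho : C.Deg f.V.dim o) (ho1 : HasDegree C o 1)
    (h : ∀ (z : C.A f.V) (q : ℚ), C.Deg f.V.dim z → HasDegree C z q →
      C.act f.π z = z - q • o) {P : List (Piece C X)} {o' : C.A X} (hP : Decomposes C X P o') :
    ∃ Q : List (Piece C (f.V.prod X)),
      Q.map (·.f) = f :: (P.map (·.f) ++ (P.map (·.f)).map fun g =>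
        ⟨f.V.prod g.V, tensor C f.π g.π⟩) ∧ Decomposes C (f.V.prod X) Q (C.ext o o') := by
  obtain ⟨R, hR, hR'⟩ := Z.exists_right f.V X hP.odeg.1
  obtain ⟨L, hL, hL'⟩ := Z.exists_left f.V X ho
  let p0 : Piece C (f.V.prod X) := ⟨f, C.graph (fst f.V X), R⟩
  let F1 : Piece C X → Piece C (f.V.prod X) := fun p =>
    ⟨p.f, C.comp (C.graph (snd f.V X)) p.a, C.comp p.b L⟩
  let F2 : Piece C X → Piece C (f.V.prod X) := fun p =>
    ⟨⟨f.V.prod p.f.V, tensor C f.π p.f.π⟩, tens C (dg C f.V) p.a, tens C (dg C f.V) p.b⟩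
  refine ⟨p0 :: (P.map F1 ++ P.map F2), ?_, ⟨?_, ?_, ?_⟩⟩
  · rw [List.map_cons, List.map_append, List.map_map, List.map_map, List.map_map]
    rfl
  · intro p hp
    rw [List.mem_cons, List.mem_append] at hp
    rcases hp with rfl | hp | hp
    · exact ⟨graph_mem' _, hR⟩
    · obtain ⟨p', hp', rfl⟩ := List.mem_map.1 hp
      exact ⟨comp_deg (graph_mem' (snd f.V X)) (hP.deg p' hp').1 (by ring),
        comp_deg (hP.deg p' hp').2 hL (by ring)⟩
    · obtain ⟨p', hp', rfl⟩ := List.mem_map.1 hp
      constructor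
      · have := tens_mem C (dg_mem C f.V) (hP.deg p' hp').1
        change _ ∈ C.gr _ ((f.V.prod p'.f.V).dim : ℤ)
        rw [dim_prod]
        push_cast
        exact this
      · have := tens_mem C (dg_mem C f.V) (hP.deg p' hp').2
        rw [dim_prod]
        push_cast
        exact this
  · constructor
    · have := ext_mem' ho hP.odeg.1
      rw [dim_prod]
      push_cast
      exact this
    · have := TH829.Prime.hasDegree_ext ho1 hP.odeg.2
      rwa [mul_one] at this
  · intro z hz
    have h0 := hpt f.V X z hz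
    clear hz
    induction h0 using Submodule.span_induction with
    | mem z hz =>
      obtain ⟨x, y, hx, hy, rfl⟩ := hz
      have htimes : times C x y = C.ext x y := rfl
      rw [htimes]
      obtain ⟨r, hr⟩ := exists_hasDegree (C := C) hx
      obtain ⟨s, hs, hsum⟩ := hP.sum y hy
      refine ⟨r * s, TH829.Prime.hasDegree_ext hr hs, ?_⟩
      have e0 : p0.act (C.ext x y) = s • C.ext (C.act f.π x) o' := by
        change C.act R (C.act f.π (C.act (C.graph (fst f.V X)) (C.ext x y))) = _
        rw [C.act_graph, push_fst_ext x y hs, act_map_smul, act_map_smul, hR']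
      have e1 : ∀ p : Piece C X, (F1 p).act (C.ext x y) = r • C.ext o (p.act y) := by
        intro p
        change C.act (C.comp p.b L) (C.act p.f.π (C.act (C.comp (C.graph (snd f.V X)) p.a)
          (C.ext x y))) = _
        rw [C.act_comp, C.act_comp, C.act_graph, push_snd_ext x y hr, act_map_smul,
          act_map_smul, act_map_smul, act_map_smul, hL']
        rfl
      have e2 : ∀ p : Piece C X, (F2 p).act (C.ext x y) = C.ext (C.act f.π x) (p.act y) := by
        intro p
        change C.act (tens C (dg C f.V) p.b) (C.act (tens C f.π p.f.π)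
          (C.act (tens C (dg C f.V) p.a) (C.ext x y))) = _
        rw [act_tens_ext C _ _ (fun _ _ => ch_comm C _ _),
          act_tens_ext C _ _ (fun _ _ => ch_comm C _ _),
          act_tens_ext C _ _ (fun _ _ => ch_comm C _ _), act_dg, act_dg]
        rfl
      rw [List.map_cons, List.sum_cons, List.map_append, List.sum_append, List.map_map,
        List.map_map, e0]
      have e3 : (P.map ((fun p => p.act (C.ext x y)) ∘ F1)).sum =
          r • C.ext o (P.map fun p => p.act y).sum := by
        rw [ext_list_sum, List.map_map, List.smul_sum, List.map_map]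
        congr 1
        apply List.map_congr_left
        intro p _
        exact e1 p
      have e4 : (P.map ((fun p => p.act (C.ext x y)) ∘ F2)).sum =
          C.ext (C.act f.π x) (P.map fun p => p.act y).sum := by
        rw [ext_list_sum, List.map_map]
        congr 1
        apply List.map_congr_left
        intro p _
        exact e2 p
      rw [e3, e4]
      have e5 : x = r • o + C.act f.π x := by
        rw [h x r hx hr]
        abel
      have e6 : (P.map fun p => p.act y).sum = y - s • o' := by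
        rw [eq_sub_iff_add_eq, add_comm]
        exact hsum.symm
      rw [e6]
      conv_lhs => rw [e5]
      generalize C.act f.π x = t
      have e7 : C.ext (r • o + t) y = r • C.ext o y + C.ext t y := by
        rw [ext_add_left, ext_smul_l]
      have e8 : ∀ u : C.A f.V, C.ext u (y - s • o') = C.ext u y - s • C.ext u o' := by
        intro u
        rw [sub_eq_add_neg, ← neg_one_smul ℚ (s • o'), ext_add_right, ext_smul_r, ext_smul_r,
          neg_one_smul, ← sub_eq_add_neg]
      rw [e7, e8, e8, smul_sub, smul_smul]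
      abel
    | zero =>
      refine ⟨0, hasDegree_zero, ?_⟩
      rw [sum_act_zero, zero_smul, add_zero]
    | add z z' _ _ ih ih' =>
      obtain ⟨q, h1, h2⟩ := ih
      obtain ⟨q', h1', h2'⟩ := ih'
      refine ⟨q + q', O.HasDegree.add' h1 h1', ?_⟩
      rw [sum_act_add, add_smul]
      conv_lhs => rw [h2, h2']
      abel
    | smul c z _ ih =>
      obtain ⟨q, h1, h2⟩ := ih
      refine ⟨c * q, O.HasDegree.smul' c h1, ?_⟩
      rw [sum_act_smul, mul_smul, ← smul_add]
      conv_lhs => rw [h2]

end pieces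

section levels

variable {K : Type w} [Field K] {H : WeilTheoryData.{u, v, w} C K} [hH : IsWeilProj H]

include hC hH

/-- Zero-cycles of degree zero are homologically trivial. -/
lemma cl_zero_of_degree {z : C.A X} (hz : C.Deg X.dim z) (h : HasDegree C z 0) : H.cl z = 0 := by
  apply tr_mul_eq_zero H _ (H.cl_mem hz)
  obtain ⟨o, ho, ho1⟩ := Z.exists_point (C := C) X
  have h1 : H.push (fst X X) (H.pull (snd X X) (H.cl o)) = 1 := by
    rw [← H.cl_pull, ← H.cl_push, (ho1 X).2, one_smul, map_one]
  have h2 : H.push (snd X X) (H.pull (fst X X) (H.cl z)) = 0 := by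
    rw [← H.cl_pull, ← H.cl_push, (h X).1, zero_smul, map_zero]
  have h3 : H.tr X (H.cl z) = H.tr (X.prod X) (H.pull (fst X X) (H.cl z) *
      H.pull (snd X X) (H.cl o)) := by
    rw [← H.tr_push (fst X X), H.proj_left, h1, mul_one]
  rw [h3, ← H.tr_push (snd X X), H.proj_right, h2, zero_mul, map_zero]

variable {F : Filtration C}

lemma act_zero_of_large {Γ : C.A (X.prod X)} {m : ℤ} (hm : m < 0 ∨ 2 * X.dim < m) {a : H.A X}
    (ha : a ∈ H.gr X m) : H.act (H.cl Γ) a = 0 := by
  have h0 : a = 0 := by
    rcases hm with h | h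
    · exact hgr_neg ha h
    · rw [TH133.gr_top H h] at ha
      exact (Submodule.mem_bot _).1 ha
  rw [h0, TheoryData.act_map_zero]

omit hC in
lemma IsPoint.hasDegree {o : C.A X} (h : IsPoint C o) : HasDegree C o 1 := by
  intro Y
  rw [one_smul]
  exact ⟨(h.2 Y).2, (h.2 Y).1⟩

/-- The properties of good factors which we use. -/
structure IsNice (H : WeilTheoryData.{u, v, w} C K) (f : Factor C) : Prop where
  dim : f.V.dim = 1 ∨ f.V.dim = 2 ∧ ∀ a : H.A f.V, H.Deg 3 a → a = 0
  deg : C.Deg f.V.dim f.π
  kills : ∀ (m : ℤ) (a : H.A f.V), m ≠ f.V.dim → H.Deg m a → H.act (H.cl f.π) a = 0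
  act : ∃ o : C.A f.V, C.Deg f.V.dim o ∧ HasDegree C o 1 ∧ ∀ (z : C.A f.V) (q : ℚ),
    C.Deg f.V.dim z → HasDegree C z q → C.act f.π z = z - q • o

/-- Curves with their middle projectors are nice. -/
theorem good_curve (hT : T.dim = 1) {o : C.A T} (ho : C.Deg 1 o) (hd : HasDegree C o 1) :
    IsNice H ⟨T, dg C T - C.ext o 1 - C.ext 1 o⟩ where
  dim := Or.inl hT
  deg := by
    change _ ∈ C.gr (T.prod T) (T.dim : ℤ)
    have h1 := ext_mem' ho (C.one_mem T)
    have h2 := ext_mem' (C.one_mem T) ho
    have h3 := dg_mem C T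
    rw [hT] at h3 ⊢
    exact Submodule.sub_mem _ (Submodule.sub_mem _ h3 (by simpa using h1)) (by simpa using h2)
  kills := by
    intro m a hm ha
    change H.act (H.cl (dg C T - C.ext o 1 - C.ext 1 o)) a = 0
    change m ≠ (T.dim : ℤ) at hm
    change a ∈ H.gr T m at ha
    have hm1 : m ≠ 1 := by
      rw [hT] at hm
      exact_mod_cast hm
    rw [map_sub, map_sub, H.act_sub, H.act_sub, actH_dg]
    have hoT : C.Deg T.dim o := by
      rw [hT]
      exact_mod_cast ho
    by_cases h0 : m = 0
    · subst h0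
      rw [act_e0_zero H hoT hd ha, act_e2_ne H hT ho (by norm_num) ha]
      abel
    · by_cases h2 : m = 2
      · subst h2
        rw [act_e0_ne H hT ho (by norm_num) ha, act_e2_two H hoT hd (by
          rw [hT]
          exact_mod_cast ha)]
        abel
      · have h3 : a = 0 := by
          rcases lt_or_ge m 0 with h | h
          · exact hgr_neg ha h
          · rw [TH133.gr_top H (by rw [hT]; push_cast; omega)] at ha
            exact (Submodule.mem_bot _).1 ha
        rw [h3]
        simp only [TheoryData.act_map_zero, sub_zero]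
  act := by
    have hoT : C.Deg T.dim o := by
      rw [hT]
      exact_mod_cast ho
    refine ⟨o, hoT, hd, fun z q hz hq => ?_⟩
    change C.act (dg C T - C.ext o 1 - C.ext 1 o) z = z - q • o
    change z ∈ C.gr T (T.dim : ℤ) at hz
    have h1 : HasDegree C (1 * z) q := by
      rw [one_mul]
      exact hq
    rw [C.act_sub, C.act_sub, act_dg, act_ext' h1,
      act_ext_zero_of_lt (C.mul_mem ho hz) (by omega), sub_zero]

/-- Surfaces with `b_1 = 0` are nice, with projectors onto complements of divisor classes. -/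
theorem good_surface (hS : S.dim = 2) (h1 : ∀ a : H.A S, H.Deg 1 a → a = 0)
    (h3 : ∀ a : H.A S, H.Deg 3 a → a = 0) {o : C.A S}
    (ho : C.Deg 2 o) (hd : HasDegree C o 1) {m : ℕ} {D E : Fin m → C.A S}
    (hDE : ∀ i, C.Deg 1 (D i) ∧ C.Deg 1 (E i)) :
    IsNice H ⟨S, dg C S - C.ext o 1 - C.ext 1 o - ∑ i, C.ext (D i) (E i)⟩ where
  dim := Or.inr ⟨hS, h3⟩
  deg := by
    change _ ∈ C.gr (S.prod S) (S.dim : ℤ)
    have h1 := ext_mem' ho (C.one_mem S)
    have h2 := ext_mem' (C.one_mem S) ho
    have h3 := dg_mem C S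
    rw [hS] at h3 ⊢
    refine Submodule.sub_mem _ (Submodule.sub_mem _ (Submodule.sub_mem _ h3 (by simpa using h1))
      (by simpa using h2)) (Submodule.sum_mem _ fun i _ => ?_)
    exact ext_mem' (hDE i).1 (hDE i).2
  kills := by
    intro j a hm ha
    change H.act (H.cl (dg C S - C.ext o 1 - C.ext 1 o - ∑ i, C.ext (D i) (E i))) a = 0
    change j ≠ (S.dim : ℤ) at hm
    change a ∈ H.gr S j at ha
    have hm2 : j ≠ 2 := by
      rw [hS] at hm
      exact_mod_cast hm
    have hoS : C.Deg S.dim o := by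
      rw [hS]
      exact_mod_cast ho
    have hsum : H.act (H.cl (∑ i, C.ext (D i) (E i))) a = 0 := by
      rw [map_sum, act_sum]
      refine Finset.sum_eq_zero fun i _ => ?_
      apply act_ext_ne (H := H) (r := 1) (by exact_mod_cast (hDE i).2) _ (by simpa using hm2) ha
      rw [hS]
      exact (hDE i).1
    have he0 : j ≠ 0 → H.act (H.cl (C.ext o (1 : C.A S))) a = 0 := by
      intro h
      apply act_ext_ne (H := H) (r := 0) (by exact_mod_cast C.one_mem S) _ (by simpa using h) ha
      rw [hS]
      exact_mod_cast ho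
    have he2 : j ≠ 4 → H.act (H.cl (C.ext (1 : C.A S) o)) a = 0 := by
      intro h
      apply act_ext_ne (H := H) (r := 2) (by exact_mod_cast ho) _ (by
        intro h'
        apply h
        rw [h']
        norm_num) ha
      rw [hS]
      have := C.one_mem S
      exact_mod_cast this
    rw [map_sub, map_sub, map_sub, H.act_sub, H.act_sub, H.act_sub, actH_dg, hsum]
    by_cases h0 : j = 0
    · subst h0
      rw [act_e0_zero H hoS hd ha, he2 (by norm_num)]
      abel
    · by_cases h4 : j = 4
      · subst h4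
        rw [he0 (by norm_num), act_e2_two H hoS hd (by
          rw [hS]
          exact_mod_cast ha)]
        abel
      · have h5 : a = 0 := by
          by_cases hj1 : j = 1
          · subst hj1
            exact h1 a ha
          · by_cases hj3 : j = 3
            · subst hj3
              exact h3 a ha
            · rcases lt_or_ge j 0 with h | h
              · exact hgr_neg ha h
              · rw [TH133.gr_top H (by rw [hS]; push_cast; omega)] at ha
                exact (Submodule.mem_bot _).1 ha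
        rw [h5]
        simp only [TheoryData.act_map_zero, sub_zero]
  act := by
    have hoS : C.Deg S.dim o := by
      rw [hS]
      exact_mod_cast ho
    refine ⟨o, hoS, hd, fun z q hz hq => ?_⟩
    change C.act (dg C S - C.ext o 1 - C.ext 1 o - ∑ i, C.ext (D i) (E i)) z = z - q • o
    change z ∈ C.gr S (S.dim : ℤ) at hz
    have h1 : HasDegree C (1 * z) q := by
      rw [one_mul]
      exact hq
    have hsum : C.act (∑ i, C.ext (D i) (E i)) z = 0 := by
      rw [act_sum]
      refine Finset.sum_eq_zero fun i _ => ?_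
      exact act_ext_zero_of_lt (C.mul_mem (hDE i).1 hz) (by omega)
    rw [C.act_sub, C.act_sub, C.act_sub, act_dg, act_ext' h1, hsum,
      act_ext_zero_of_lt (C.mul_mem ho hz) (by omega), sub_zero, sub_zero]

/-- Good factors are nice. -/
theorem IsGoodFactor.isNice {f : Factor C} (hf : IsGoodFactor H f) : IsNice H f := by
  obtain ⟨hd, o, m, D, E, ho, hDE, hπ⟩ := hf
  have hπ' : f.π = dg C f.V - C.ext o 1 - C.ext 1 o - ∑ i, C.ext (D i) (E i) := hπ
  have key : IsNice H ⟨f.V, f.π⟩ := by
    rw [hπ']
    rcases hd with h1 | ⟨h2, h⟩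
    · have hm : IsEmpty (Fin m) := ⟨fun i => by
        have := (hDE i).1
        omega⟩
      rw [Finset.univ_eq_empty, Finset.sum_empty, sub_zero]
      refine good_curve h1 ?_ (IsPoint.hasDegree (H := H) ho)
      have := ho.1
      rw [h1] at this
      exact_mod_cast this
    · refine good_surface h2 (fun a ha => h a (Or.inl ha)) (fun a ha => h a (Or.inr ha)) ?_
        (IsPoint.hasDegree (H := H) ho) fun i => (hDE i).2
      have := ho.1
      rw [h2] at this
      exact_mod_cast this
  exact key

/-- The external product with a homologically trivial zero-cycle from a curve. -/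
lemma ext_left_mem (hF : IsBlochBeilinson H F) {x : C.A X} (hx : C.Deg X.dim x)
    (h0 : H.cl x = 0) {b : ℕ} {y : C.A Y} (hy : F.Mem Y.dim b y) :
    F.Mem (X.prod Y).dim (b + 1) (C.ext x y) := by
  have h1 : C.ext x y = C.act (C.comp (C.cograph (snd X Y)) (C.mulCorr (C.pull (fst X Y) x))) y := by
    rw [C.act_comp, C.act_cograph, C.act_mulCorr, TheoryData.ext]
  rw [h1]
  apply hF.shift Y (X.prod Y) Y.dim (X.prod Y).dim b _ _ _ y hy
  · refine comp_deg (cograph_mem (snd X Y))
      (Pool.Agent.X308.U.mulCorr_mem' (C.pull_mem (fst X Y) hx)) ?_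
    rw [dim_prod]
    push_cast
    ring
  · rw [cl_comp, cl_mulCorr (by rw [H.cl_pull, h0, map_zero]), comp_zero]

/-- The zero-cycles of degree zero on a surface with `b_3 = 0` come from curves by homologically
trivial correspondences. -/
lemma hom_from_curve (hK : CyclesFromCurves H) (hd : S.dim = 2)
    (h3 : ∀ a : H.A S, H.Deg 3 a → a = 0) {z : C.A S} (hz : C.Deg S.dim z) (h0 : H.cl z = 0) :
    ∃ (T : 𝒱.Obj) (Γ : C.A (T.prod S)) (v : C.A T), T.dim = 1 ∧
      C.Deg 2 Γ ∧ H.cl Γ = 0 ∧ C.Deg 1 v ∧ H.cl v = 0 ∧ C.act Γ v = z := by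
  obtain ⟨T, f, v, hT, hv, hv0, hfv⟩ := hK S z (by omega) hz h0
  have hg : C.graph f ∈ C.gr (T.prod S) 2 := by
    have := graph_mem' (C := C) f
    rw [hd] at this
    exact_mod_cast this
  obtain ⟨Γ', h2, h3', h4⟩ := curve_replace hT hg (fun a ha => by
    apply h3
    have := actH_deg hg ha (by rw [hT]; norm_num : (1 : ℤ) + 2 * (2 - T.dim) = 3)
    exact this) hv hv0
  refine ⟨T, Γ', v, hT, h2, h3', hv, hv0, ?_⟩
  have h6 : C.push f v = z := hfv
  rw [h4, C.act_graph, h6]

/-- The level of the image of the correspondence of a good factor. -/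
lemma good_level (hK : CyclesFromCurves H) (hF : IsBlochBeilinson H F) {f : Factor C}
    (hf : IsNice H f) {x : C.A f.V} (hx : C.Deg f.V.dim x) {b : ℕ} {y : C.A Y}
    (hy : F.Mem Y.dim b y) :
    F.Mem (f.V.prod Y).dim (b + f.V.dim) (C.ext (C.act f.π x) y) := by
  obtain ⟨o, ho, ho1, hact⟩ := hf.act
  obtain ⟨q, hq⟩ := exists_hasDegree (C := C) hx
  set x' := C.act f.π x with hx'
  have hx'm : C.Deg f.V.dim x' := act_deg hf.deg hx (by ring)
  have hx'0 : HasDegree C x' 0 := by
    rw [hx', hact x q hx hq]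
    have := O.HasDegree.sub' hq (O.HasDegree.smul' q ho1)
    rwa [mul_one, sub_self] at this
  rcases hf.dim with h1 | ⟨h2, hb3⟩
  · rw [h1]
    exact ext_left_mem hF hx'm (cl_zero_of_degree (H := H) hx'm hx'0) hy
  · obtain ⟨T, Γ, v, hT, hΓ, hΓ0, hv, hv0, hΓv⟩ :=
      hom_from_curve hK h2 hb3 hx'm (cl_zero_of_degree (H := H) hx'm hx'0)
    have h3 : C.ext x' y = C.act (tens C Γ (dg C Y)) (C.ext v y) := by
      rw [act_tens_ext C _ _ (fun _ _ => ch_comm C _ _), hΓv, act_dg]
    have hvT : C.Deg T.dim v := by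
      rw [hT]
      exact_mod_cast hv
    have h4 : F.Mem (T.prod Y).dim (b + 1) (C.ext v y) := ext_left_mem hF hvT hv0 hy
    rw [h3, h2]
    apply hF.shift (T.prod Y) (f.V.prod Y) (T.prod Y).dim (f.V.prod Y).dim (b + 1) _ _ _ _ h4
    · have h5 := tens_mem C hΓ (dg_mem C Y)
      have e : ((T.prod Y).dim : ℤ) + (f.V.prod Y).dim - (T.prod Y).dim = 2 + Y.dim := by
        rw [dim_prod, dim_prod, h2]
        push_cast
        ring
      rw [e]
      exact h5
    · rw [tens, map_mul, H.cl_pull, hΓ0, map_zero, zero_mul]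

/-- The properties of the products of good factors. -/
structure IsLevel (H : WeilTheoryData.{u, v, w} C K) (F : Filtration C) (g : Factor C) : Prop where
  pos : 1 ≤ g.V.dim
  deg : C.Deg g.V.dim g.π
  kills : ∀ (m : ℤ) (a : H.A g.V), m ≠ g.V.dim → H.Deg m a → H.act (H.cl g.π) a = 0
  low : ∀ z : C.A g.V, C.Deg g.V.dim z → F.Mem g.V.dim g.V.dim (C.act g.π z)

lemma IsNice.isLevel (hK : CyclesFromCurves H) (hF : IsBlochBeilinson H F)
    {f : Factor C} (hf : IsNice H f) : IsLevel H F f where
  pos := by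
    rcases hf.dim with h | h
    · omega
    · omega
  deg := hf.deg
  kills := hf.kills
  low z hz := by
    obtain ⟨o, ho, ho1, hact⟩ := hf.act
    obtain ⟨q, hq⟩ := exists_hasDegree (C := C) hz
    have hz'm : C.Deg f.V.dim (C.act f.π z) := act_deg hf.deg hz (by ring)
    have hz'0 : HasDegree C (C.act f.π z) 0 := by
      rw [hact z q hz hq]
      have := O.HasDegree.sub' hq (O.HasDegree.smul' q ho1)
      rwa [mul_one, sub_self] at this
    rcases hf.dim with h1 | ⟨h2, hb3⟩
    · have h3 := (hF.bounded.one f.V f.V.dim _).2 ⟨hz'm, cl_zero_of_degree (H := H) hz'm hz'0⟩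
      have h4 : F.Mem f.V.dim f.V.dim (C.act f.π z) ↔ F.Mem f.V.dim 1 (C.act f.π z) := by
        rw [h1]
      exact h4.2 h3
    · obtain ⟨T, Γ, v, hT, hΓ, hΓ0, hv, hv0, hΓv⟩ :=
        hom_from_curve hK h2 hb3 hz'm (cl_zero_of_degree (H := H) hz'm hz'0)
      have h3 := hF.shift T f.V 1 2 1 Γ (by rw [hT]; exact hΓ) hΓ0 v
        ((hF.bounded.one T 1 v).2 ⟨hv, hv0⟩)
      rw [hΓv] at h3
      have h4 : F.Mem f.V.dim f.V.dim (C.act f.π z) ↔ F.Mem 2 2 (C.act f.π z) := by
        rw [h2]
      exact h4.2 h3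

lemma IsLevel.tens (hK : CyclesFromCurves H) (hpt : PointsAreProducts C)
    (hF : IsBlochBeilinson H F) {f g : Factor C} (hf : IsNice H f) (hg : IsLevel H F g) :
    IsLevel H F ⟨f.V.prod g.V, tensor C f.π g.π⟩ where
  pos := by
    change 1 ≤ (f.V.prod g.V).dim
    rw [dim_prod]
    have := hg.pos
    omega
  deg := by
    have h := tens_mem C hf.deg hg.deg
    change _ ∈ C.gr _ ((f.V.prod g.V).dim : ℤ)
    rw [dim_prod]
    push_cast
    exact h
  kills := by
    intro m a hm ha
    change H.act (H.cl (TH133.tens C f.π g.π)) a = 0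
    have h1 := H.kunneth f.V g.V m ha
    clear ha
    induction h1 using Submodule.span_induction with
    | mem a hal =>
      obtain ⟨l, x, y, hx, hy, rfl⟩ := hal
      change H.act (H.cl (TH133.tens C f.π g.π)) (H.ext x y) = 0
      rw [actH_tens_ext]
      by_cases h2 : l = f.V.dim
      · have h3 : m - l ≠ g.V.dim := by
          intro h4
          apply hm
          change m = ((f.V.prod g.V).dim : ℤ)
          rw [dim_prod]
          push_cast
          omega
        rw [hg.kills _ y h3 hy, H.ext_zero_right]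
      · rw [hf.kills _ x h2 hx, H.ext_zero_left]
    | zero => exact TheoryData.act_map_zero _ _
    | add x y _ _ ih ih' => rw [act_map_add, ih, ih', add_zero]
    | smul c x _ ih => rw [act_map_smul, ih, smul_zero]
  low := by
    intro z hz
    have h1 := hpt f.V g.V z hz
    change C.act (TH133.tens C f.π g.π) z ∈ F.F _ _ _
    clear hz
    induction h1 using Submodule.span_induction with
    | mem z hz =>
      obtain ⟨x, y, hx, hy, rfl⟩ := hz
      have htimes : times C x y = C.ext x y := rfl
      rw [htimes, act_tens_ext C _ _ (fun _ _ => ch_comm C _ _)]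
      have h2 := good_level hK hF hf hx (hg.low y hy)
      have e : (f.V.prod g.V).dim = g.V.dim + f.V.dim := by
        rw [dim_prod, add_comm]
      have h3 : ∀ n, n = g.V.dim + f.V.dim →
          (C.ext (C.act f.π x) (C.act g.π y) ∈ F.F (f.V.prod g.V) (f.V.prod g.V).dim n) := by
        rintro n rfl
        exact h2
      exact h3 _ e
    | zero =>
      rw [TheoryData.act_map_zero]
      exact Submodule.zero_mem _
    | add x y _ _ ih ih' =>
      rw [act_map_add]
      exact Submodule.add_mem _ ih ih'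
    | smul c x _ ih =>
      rw [act_map_smul]
      exact Submodule.smul_mem _ _ ih

lemma subTensors_isLevel (hK : CyclesFromCurves H) (hpt : PointsAreProducts C)
    (hF : IsBlochBeilinson H F) (l : List (Factor C)) (hl : ∀ g ∈ l, IsNice H g) :
    ∀ g ∈ subTensors l, IsLevel H F g := by
  induction l with
  | nil => intro g hg; simp [subTensors] at hg
  | cons f l ih =>
    intro g hg
    have hf := hl f List.mem_cons_self
    have ih' := ih fun g hg => hl g (List.mem_cons_of_mem _ hg)
    rw [subTensors, List.mem_cons, List.mem_append] at hg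
    rcases hg with rfl | hg | hg
    · exact hf.isLevel hK hF
    · exact ih' g hg
    · obtain ⟨g', hg', rfl⟩ := List.mem_map.1 hg
      exact IsLevel.tens hK hpt hF hf (ih' g' hg')

lemma exists_pieces (hpt : PointsAreProducts C) (f : Factor C) (l : List (Factor C))
    (hl : ∀ g ∈ f :: l, IsNice H g) :
    ∃ (P : List (Piece C (productObj f l))) (o : C.A (productObj f l)),
      P.map (·.f) = subTensors (f :: l) ∧ Decomposes C (productObj f l) P o := by
  induction l generalizing f with
  | nil =>
    obtain ⟨o, ho, ho1, hact⟩ := (hl f List.mem_cons_self).act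
    exact ⟨_, o, rfl, decomposes_one ho ho1 hact⟩
  | cons g l ih =>
    obtain ⟨P, o', h1, h2⟩ := ih g fun g' hg' => hl g' (List.mem_cons_of_mem _ hg')
    obtain ⟨o, ho, ho1, hact⟩ := (hl f List.mem_cons_self).act
    obtain ⟨Q, h3, h4⟩ := decomposes_prod hpt ho ho1 hact h2
    refine ⟨Q, _, ?_, h4⟩
    refine h3.trans ?_
    rw [h1]
    rfl

end levels

section hodge

variable {H : WeilTheoryData.{u, v, 0} C ℂ} [hH : IsWeilProj H] {P : HodgeData H}
  {F : Filtration C}

include hC hH

/-- The correspondence of a piece is homologically trivial. -/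
lemma cl_piece (hR : RationalStructure P) (hD : Decomposition P) {g : Factor C} (hg : IsLevel H F g) {i : ℕ} (hi : g.V.dim = i)
    (hN : NoSmallHodge P g i) {Z : C.A (X.prod Y)} (hZ : C.Deg Y.dim Z)
    (h0 : ZeroOnForms P i Z) {b : C.A (g.V.prod X)} (hb : C.Deg X.dim b) :
    H.cl (C.comp g.π (C.comp b Z)) = 0 := by
  subst hi
  set Γ := C.comp g.π (C.comp b Z) with hΓ
  have hbZ : C.comp b Z ∈ C.gr (g.V.prod Y) Y.dim := comp_deg hb hZ (by ring)
  have hΓm : Γ ∈ C.gr (g.V.prod Y) Y.dim := comp_deg hg.deg hbZ (by ring)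
  have ht : tp C Γ = C.comp (C.comp (tp C Z) (tp C b)) (tp C g.π) := by
    rw [hΓ, tp_comp', tp_comp']
  have htm : tp C Γ ∈ C.gr (Y.prod g.V) Y.dim := tp_mem C hΓm
  have htb : C.comp (tp C Z) (tp C b) ∈ C.gr (Y.prod g.V) Y.dim := by
    rw [← tp_comp']
    exact tp_mem C hbZ
  -- the transpose of the projector lives in the middle degree
  have hπt : ∀ (m : ℤ) (a : H.A g.V), m ≠ g.V.dim → a ∈ H.gr g.V m →
      H.act (H.cl (tp C g.π)) a = 0 := by
    intro m a hm ha
    apply act_zero_of_tp (tp_mem C hg.deg) (m := 2 * g.V.dim - m) (m' := m) (by ring) _ ha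
    intro c hc
    rw [tp_tp]
    exact hg.kills _ c (by omega) hc
  have hkill : ∀ (m : ℤ) (y : H.A Y), y ∈ H.gr Y m → m ≠ g.V.dim →
      H.act (H.cl (tp C Γ)) y = 0 := by
    intro m y hy hm
    rw [ht, actH_comp]
    exact hπt m _ hm (actH_deg htb hy (by ring))
  have hred : ∀ y : H.A Y, ∃ y' ∈ H.gr Y g.V.dim,
      H.act (H.cl (tp C Γ)) y = H.act (H.cl (tp C Γ)) y' := by
    intro y
    have hy := span_gr H Y y
    induction hy using Submodule.iSup_induction' with
    | mem m y hy =>
      by_cases hm : m = g.V.dim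
      · exact ⟨y, hm ▸ hy, rfl⟩
      · refine ⟨0, Submodule.zero_mem _, ?_⟩
        rw [hkill m y hy hm, TheoryData.act_map_zero]
    | zero => exact ⟨0, Submodule.zero_mem _, rfl⟩
    | add x y _ _ hx hy =>
      obtain ⟨x', hx', hx''⟩ := hx
      obtain ⟨y', hy', hy''⟩ := hy
      refine ⟨x' + y', Submodule.add_mem _ hx' hy', ?_⟩
      rw [act_map_add, act_map_add, hx'', hy'']
  let L : Submodule ℂ (H.A g.V) := LinearMap.range (H.actL (H.cl (tp C Γ)))
  have hLmem : ∀ y : H.A Y, H.act (H.cl (tp C Γ)) y ∈ L := fun y => ⟨y, rfl⟩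
  have hL : ∀ a ∈ L, a = 0 := by
    suffices h : L = ⊥ by
      intro a ha
      rw [h] at ha
      exact (Submodule.mem_bot _).1 ha
    apply hN L
    · rintro a ⟨y, rfl⟩
      obtain ⟨y', hy', h1⟩ := hred y
      refine ⟨H.act (H.cl (C.comp (tp C Z) (tp C b))) y', actH_deg htb hy' (by ring), ?_⟩
      rw [H.actL_apply, h1, ht, actH_comp]
    · rintro a ⟨y, rfl⟩
      obtain ⟨y', hy', h3⟩ := hred y
      rw [H.actL_apply, h3]
      have h1 := hR.1 Y g.V.dim y' hy'
      have h2 : Submodule.span ℂ {c | c ∈ P.rat Y ∧ H.Deg (g.V.dim : ℕ) c} ≤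
          (Submodule.span ℂ {c | c ∈ P.rat g.V ∧ c ∈ L}).comap (H.actL (H.cl (tp C Γ))) := by
        rw [Submodule.span_le]
        rintro c ⟨hc1, hc2⟩
        rw [SetLike.mem_coe, Submodule.mem_comap]
        exact Submodule.subset_span ⟨hR.2 Y g.V (tp C Γ) c hc1, hLmem c⟩
      exact h2 h1
    · rintro a ⟨y, rfl⟩
      obtain ⟨y', hy', h3⟩ := hred y
      obtain ⟨x, hx, hsum⟩ := hD.1 Y g.V.dim y' hy'
      refine ⟨fun p => H.act (H.cl (tp C Γ)) (x p), fun p hp => ⟨hLmem _, ?_⟩, ?_⟩
      · exact hD.2 Y g.V (tp C Γ) htm p (g.V.dim - p) _ (hx p hp.le)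
      · have h4 : H.act (H.cl (tp C Γ)) (x g.V.dim) = 0 := by
          have h5 := hx g.V.dim le_rfl
          rw [Nat.sub_self] at h5
          rw [ht, actH_comp, actH_comp, h0 _ h5, TheoryData.act_map_zero,
            TheoryData.act_map_zero]
        rw [H.actL_apply, h3, hsum, act_map_sum, Finset.sum_range_succ, h4, add_zero]
  have hz : H.cl (tp C Γ) = 0 := by
    apply cl_zero_of
    intro m a _
    exact hL _ (hLmem a)
  rw [← tp_tp C Γ, cl_tp, hz, tp_zero]

lemma products_aux (hR : RationalStructure P) (hD : Decomposition P) (hF : IsBlochBeilinson H F) {Q : List (Piece C X)} {o : C.A X}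
    (hdec : Decomposes C X Q o) (hlev : ∀ p ∈ Q, IsLevel H F p.f) {i : ℕ} (hi : 1 ≤ i)
    (hN : ∀ p ∈ Q, p.f.V.dim = i → NoSmallHodge P p.f i)
    {Z : C.A (X.prod Y)} (hZ : C.Deg Y.dim Z) (h0 : ZeroOnForms P i Z) :
    ZeroOnGr F i Z := by
  intro z hz
  have hz1 : F.Mem X.dim 1 z := by
    have h1 : ∀ n, F.Mem X.dim (1 + n) z → F.Mem X.dim 1 z := by
      intro n
      induction n with
      | zero => exact id
      | succ n ih => exact fun h => ih (F.anti X X.dim (1 + n) h)
    obtain ⟨n, rfl⟩ : ∃ n, i = 1 + n := ⟨i - 1, by omega⟩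
    exact h1 n hz
  obtain ⟨hzm, hz0⟩ := (hF.bounded.one X X.dim z).1 hz1
  obtain ⟨q, hq, hsum⟩ := hdec.sum z hzm
  have hq0 : q = 0 := by
    have h1 := hasDegree_zero_of_cl (H := H) hzm hz0
    exact U.one_cancel (C := C) (fun X h => hH.one_ne_zero X (by rw [← map_one H.cl, h, map_zero]))
      hq h1
  rw [hq0, zero_smul, zero_add] at hsum
  have key : ∀ p ∈ Q, C.act Z (p.act z) ∈ F.F Y Y.dim (i + 1) := by
    intro p hp
    have hpL := hlev p hp
    obtain ⟨ha, hb⟩ := hdec.deg p hp
    have h1 : F.Mem p.f.V.dim i (C.act p.a z) := by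
      apply hF.stable X p.f.V X.dim p.f.V.dim i p.a _ z hz
      have e : (X.dim : ℤ) + p.f.V.dim - X.dim = p.f.V.dim := by ring
      rw [e]
      exact ha
    have h1m : C.Deg p.f.V.dim (C.act p.a z) := act_deg ha hzm (by ring)
    have hbZ : C.comp p.b Z ∈ C.gr (p.f.V.prod Y) Y.dim := comp_deg hb hZ (by ring)
    have e1 : C.act Z (p.act z) = C.act (C.comp p.b Z) (C.act p.f.π (C.act p.a z)) := by
      rw [C.act_comp]
      rfl
    rcases lt_trichotomy p.f.V.dim i with hlt | heq | hgt
    · have h2 : C.act p.a z = 0 := by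
        apply hF.bounded.top p.f.V p.f.V.dim
        have h3 : ∀ n, F.Mem p.f.V.dim (p.f.V.dim + 1 + n) (C.act p.a z) →
            F.Mem p.f.V.dim (p.f.V.dim + 1) (C.act p.a z) := by
          intro n
          induction n with
          | zero => exact id
          | succ n ih => exact fun h => ih (F.anti _ _ _ h)
        obtain ⟨n, hn⟩ : ∃ n, i = p.f.V.dim + 1 + n := ⟨i - p.f.V.dim - 1, by omega⟩
        rw [hn] at h1
        exact h3 n h1
      rw [e1, h2, TheoryData.act_map_zero, TheoryData.act_map_zero]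
      exact Submodule.zero_mem _
    · have h2 := cl_piece hR hD hpL heq (hN p hp heq) hZ h0 hb
      have h3 : C.act Z (p.act z) = C.act (C.comp p.f.π (C.comp p.b Z)) (C.act p.a z) := by
        rw [e1, C.act_comp p.f.π]
      rw [h3]
      apply hF.shift p.f.V Y p.f.V.dim Y.dim i _ _ h2 _ h1
      have e : (p.f.V.dim : ℤ) + Y.dim - p.f.V.dim = Y.dim := by ring
      rw [e]
      exact comp_deg hpL.deg hbZ (by ring)
    · have h2 := hpL.low _ h1m
      have h3 : F.Mem Y.dim p.f.V.dim (C.act Z (p.act z)) := by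
        rw [e1]
        apply hF.stable p.f.V Y p.f.V.dim Y.dim p.f.V.dim _ _ _ h2
        have e : (p.f.V.dim : ℤ) + Y.dim - p.f.V.dim = Y.dim := by ring
        rw [e]
        exact hbZ
      have h4 : ∀ n, F.Mem Y.dim (i + 1 + n) (C.act Z (p.act z)) →
          F.Mem Y.dim (i + 1) (C.act Z (p.act z)) := by
        intro n
        induction n with
        | zero => exact id
        | succ n ih => exact fun h => ih (F.anti _ _ _ h)
      obtain ⟨n, hn⟩ : ∃ n, p.f.V.dim = i + 1 + n := ⟨p.f.V.dim - i - 1, by omega⟩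
      rw [hn] at h3
      exact h4 n h3
  change C.act Z z ∈ F.F Y Y.dim (i + 1)
  rw [hsum]
  clear hdec hsum hlev hN
  induction Q with
  | nil =>
    rw [List.map_nil, List.sum_nil, TheoryData.act_map_zero]
    exact Submodule.zero_mem _
  | cons p Q ih =>
    rw [List.map_cons, List.sum_cons, act_map_add]
    exact Submodule.add_mem _ (key p List.mem_cons_self)
      (ih fun p hp => key p (List.mem_cons_of_mem _ hp))

/-- **The generalized Bloch conjecture for zero-cycles on products of curves and surfaces.** -/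
theorem products (hK : CyclesFromCurves H) (hR : RationalStructure P) (hD : Decomposition P)
    (hpt : PointsAreProducts C)
    (hF : IsBlochBeilinson H F) (f : Factor C) (l : List (Factor C))
    (hl : ∀ g ∈ f :: l, IsGoodFactor H g) {i : ℕ} (hi : 1 ≤ i)
    (hN : ∀ g ∈ subTensors (f :: l), g.V.dim = i → NoSmallHodge P g i)
    {Z : C.A ((productObj f l).prod Y)} (hZ : C.Deg Y.dim Z) (h0 : ZeroOnForms P i Z) :
    ZeroOnGr F i Z := by
  have hl' : ∀ g ∈ f :: l, IsNice H g := fun g hg => (hl g hg).isNice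
  obtain ⟨Q, o, hQ, hdec⟩ := exists_pieces hpt f l hl'
  have hlev := subTensors_isLevel hK hpt hF (f :: l) hl'
  have hmem : ∀ p ∈ Q, p.f ∈ subTensors (f :: l) := by
    intro p hp
    rw [← hQ]
    exact List.mem_map.2 ⟨p, hp, rfl⟩
  exact products_aux hR hD hF hdec (fun p hp => hlev _ (hmem p hp)) hi
    (fun p hp h => hN _ (hmem p hp) h) hZ h0

end hodge

end Pool.Agent.X308.G
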