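import Pool.Agent.X308.G.LowDefs

/-!
# Bloch-Beilinson filtrations on products of curves and surfaces: definitions
-/

set_option autoImplicit false

open CategoryTheory

universe u v w

namespace Pool.Agent.X308.G

open Pool.Agent.H914 Pool.Agent.H914.VarClass Pool.Agent.H914.VarClass.Obj Pool.Agent.W492.BB
  Pool.Agent.TH133

variable {k : Type u} [Field k] {𝒱 : VarClass k}

section cycles

variable (C : TheoryData.{u, v, 0} 𝒱 ℚ) {X Y Z W : 𝒱.Obj}

/-- `o` is a zero-cycle of degree one: for all `Z` the push-forward of `Z × o` to `Z` is the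
fundamental class. -/
def IsPoint (o : C.A X) : Prop :=
  C.Deg X.dim o ∧ ∀ Z : 𝒱.Obj, C.down (fst Z X) (C.up (snd Z X) o) = 1 ∧
    C.down (snd X Z) (C.up (fst X Z) o) = 1

/-- The external product `x × y`. -/
noncomputable def times (x : C.A X) (y : C.A Y) : C.A (X.prod Y) :=
  C.mul (C.up (fst X Y) x) (C.up (snd X Y) y)

/-- The class of the diagonal. -/
noncomputable def diag (X : 𝒱.Obj) : C.A (X.prod X) := C.down (Obj.lift (𝟙 X) (𝟙 X)) 1

/-- The tensor product of correspondences. -/
noncomputable def tensor (Γ : C.A (X.prod Y)) (Δ : C.A (Z.prod W)) :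
    C.A ((X.prod Z).prod (Y.prod W)) :=
  C.mul (C.up (prodMap (fst X Z) (fst Y W)) Γ) (C.up (prodMap (snd X Z) (snd Y W)) Δ)

/-- The self-correspondence `Δ - o × V - V × o - ∑ D_j × E_j` of `V`. -/
noncomputable def projector {V : 𝒱.Obj} (o : C.A V) {m : ℕ} (D E : Fin m → C.A V) :
    C.A (V.prod V) :=
  diag C V - times C o 1 - times C 1 o - ∑ i, times C (D i) (E i)

/-- Zero-cycles on a product `X × Y` are sums of products `x × y` of zero-cycles (known over an
algebraically closed field). -/
def PointsAreProducts : Prop :=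
  ∀ (X Y : 𝒱.Obj) (z : C.A (X.prod Y)), C.Deg (X.prod Y).dim z →
    z ∈ Submodule.span ℚ {c | ∃ (x : C.A X) (y : C.A Y), C.Deg X.dim x ∧ C.Deg Y.dim y ∧
      c = times C x y}

/-- A variety `V` with a self-correspondence `π`. -/
structure Factor where
  /-- the variety -/
  V : 𝒱.Obj
  /-- the self-correspondence -/
  π : C.A (V.prod V)

end cycles

variable {C : TheoryData.{u, v, 0} 𝒱 ℚ}

/-- The product of the varieties `V`, for a nonempty list `f, g, …` of factors. -/
noncomputable def productObj : Factor C → List (Factor C) → 𝒱.Obj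
  | f, [] => f.V
  | f, g :: l => f.V.prod (productObj g l)

/-- For a list of factors `(V_a, π_a)`: the list of the products `(∏ V_a, ⊗ π_a)` over the nonempty
subsets of the set of indices `a`. -/
noncomputable def subTensors : List (Factor C) → List (Factor C)
  | [] => []
  | f :: l => f :: (subTensors l ++ (subTensors l).map fun g => ⟨f.V.prod g.V, tensor C f.π g.π⟩)

/-- The factor `(V, π)` is a curve or a surface with `b_1 = b_3 = 0`, with
`π = Δ - o × V - V × o - ∑ D_j × E_j` for a zero-cycle `o` of degree one and divisors `D_j`, `E_j`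
(without the sum if `V` is a curve). -/
structure IsGoodFactor {K : Type w} [Field K] (H : WeilTheoryData.{u, v, w} C K) (f : Factor C) :
    Prop where
  dim : f.V.dim = 1 ∨ f.V.dim = 2 ∧ ∀ a : H.A f.V, H.Deg 1 a ∨ H.Deg 3 a → a = 0
  pi : ∃ (o : C.A f.V) (m : ℕ) (D E : Fin m → C.A f.V), IsPoint C o ∧
    (∀ i, f.V.dim = 2 ∧ C.Deg 1 (D i) ∧ C.Deg 1 (E i)) ∧ f.π = projector C o D E

/-- Q1 for the variety `X`, the degree `i` and all `Y`. -/
def BlochHolds {H : WeilTheoryData.{u, v, 0} C ℂ} (P : HodgeData H) (F : Filtration C)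
    (X : 𝒱.Obj) (i : ℕ) : Prop :=
  ∀ (Y : 𝒱.Obj) (Z : C.A (X.prod Y)), C.Deg Y.dim Z → ZeroOnForms P i Z → ZeroOnGr F i Z

/-- Let `M` be a complex vector space with a subset `R` (the rational elements), a subset `I` and
subsets `h p` (the elements of type `(p, i - p)`). Every subspace `L` contained in `I` is zero if it
is spanned by its rational elements and every element of `L` is a sum of elements of `L` of the
types `(p, i - p)`, `p < i`. -/
def NoSub {M : Type v} [AddCommGroup M] [Module ℂ M] (R I : Set M) (h : ℕ → Set M) (i : ℕ) :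
    Prop :=
  ∀ L : Submodule ℂ M, (L : Set M) ⊆ I → L ≤ Submodule.span ℂ {b | b ∈ R ∧ b ∈ L} →
    (∀ a ∈ L, ∃ x : ℕ → M, (∀ p < i, x p ∈ L ∧ x p ∈ h p) ∧ a = ∑ p ∈ Finset.range i, x p) →
    L = ⊥

/-- Let `M` be the image of (the transpose of) `π` on `H^i(V)`. Every Hodge substructure `L` of `M`
with `L^{i,0} = 0` is zero. -/
def NoSmallHodge {H : WeilTheoryData.{u, v, 0} C ℂ} (P : HodgeData H) (f : Factor C) (i : ℕ) :
    Prop :=
  NoSub (P.rat f.V) {a | ∃ b : H.A f.V, H.Deg i b ∧ a = H.act (H.cl (tp C f.π)) b}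
    (fun p => P.hod f.V p (i - p)) i

end Pool.Agent.X308.G
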